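import Mathlib

set_option autoImplicit false
open MeasureTheory Set Filter Topology
open scoped ENNReal

namespace Pool.Agent.Results.MP_2a72d7_pr.ZeroTensor
noncomputable section

/-- the coordinate law: 0 with probability 1/2, and each of plus or minus sqrt 2 with 1/4 -/
def ξ : Measure ℝ :=
  (2⁻¹ : ℝ≥0∞) • .dirac 0 + (4⁻¹ : ℝ≥0∞) • .dirac √2 + (4⁻¹ : ℝ≥0∞) • .dirac (-√2)

/-- `m` independent simple tensors, each given by `d` independent factors in `ℝ^n` -/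
def law (m d n : ℕ) : Measure (Fin m → Fin d → Fin n → ℝ) :=
  Measure.pi fun _ => Measure.pi fun _ => Measure.pi fun _ => ξ

/-- the simple tensor with factors `x` -/
def tens {d n : ℕ} (x : Fin d → Fin n → ℝ) (i : Fin d → Fin n) : ℝ := ∏ k, x k (i k)

instance : IsProbabilityMeasure ξ := ⟨by
  have : (4⁻¹ : ℝ≥0∞) + 4⁻¹ = 2⁻¹ := by
    rw [← two_mul, show (4 : ℝ≥0∞) = 2 * 2 by norm_num, ENNReal.mul_inv (by simp) (by simp),
      ← mul_assoc, ENNReal.mul_inv_cancel (by simp) (by simp), one_mul]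
  simp [ξ, add_assoc, this, ENNReal.inv_two_add_inv_two]⟩

lemma ξ_int (f : ℝ → ℝ) : ∫ x, f x ∂ξ = 2⁻¹ * f 0 + 4⁻¹ * f √2 + 4⁻¹ * f (-√2) := by
  have h (c : ℝ≥0∞) (hc : c ≠ ⊤) (a : ℝ) : Integrable f (c • .dirac a) :=
    (integrable_dirac (by simp)).smul_measure hc
  rw [ξ, integral_add_measure ((h _ (by simp) _).add_measure (h _ (by simp) _)) (h _ (by simp) _),
    integral_add_measure (h _ (by simp) _) (h _ (by simp) _)]
  simp

theorem result : IsProbabilityMeasure ξ ∧ (∀ᵐ x ∂ξ, |x| ≤ 2) ∧ ∫ x, x ∂ξ = 0 ∧ ∫ x, x ^ 2 ∂ξ = 1 ∧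
    ∀ ε : ℝ, 0 < ε → ε < 1 → ∀ κ : ℝ, 0 < κ → ∀ d : ℕ → ℕ, (∀ᶠ n in atTop, κ * n ≤ d n) →
      Tendsto (fun n => law ⌊(1 - ε) * n ^ d n⌋₊ (d n) n
        {X | LinearIndependent ℝ fun i => tens (X i)}) atTop (𝓝 0) := by
  have h2 : √2 ≤ (2 : ℝ) := Real.sqrt_le_iff.2 ⟨by norm_num, by norm_num⟩
  refine ⟨inferInstance, ?_, by simp [ξ_int], by rw [ξ_int]; norm_num, fun ε h0 h1 κ hκ d hd => ?_⟩
  · simp [ξ, ae_add_measure_iff, abs_of_nonneg, h2]
  have h3 : Tendsto (fun n : ℕ => ENNReal.ofReal (Real.exp (-((1 - ε) * 2 ^ n - 1)))) atTop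
      (𝓝 0) := by
    simpa [sub_eq_add_neg] using ENNReal.tendsto_ofReal (Real.tendsto_exp_neg_atTop_nhds_zero.comp
      (tendsto_atTop_add_const_right _ (-1) ((tendsto_pow_atTop_atTop_of_one_lt
        (one_lt_two (α := ℝ))).const_mul_atTop (sub_pos.2 h1))))
  refine tendsto_of_tendsto_of_tendsto_of_le_of_le' tendsto_const_nhds h3 (by simp) ?_
  filter_upwards [hd, eventually_gt_atTop 0,
    tendsto_natCast_atTop_atTop.eventually_ge_atTop ((4 : ℝ) ^ κ⁻¹)] with n h4 h5 h6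
  have h7 : 0 < d n := by exact_mod_cast (by positivity : 0 < κ * n).trans_le h4
  set m := ⌊(1 - ε) * n ^ d n⌋₊
  let Z : Set (Fin (d n) → Fin n → ℝ) := Function.eval ⟨0, h7⟩ ⁻¹' univ.pi fun _ => {0}
  have hZ : MeasurableSet Z := measurable_pi_apply _ (.univ_pi fun _ => measurableSet_singleton _)
  have h8 : (Measure.pi fun _ => Measure.pi fun _ => ξ) Zᶜ ≤ .ofReal (Real.exp (-(2⁻¹ ^ n))) := by
    rw [prob_compl_eq_one_sub hZ, (measurePreserving_eval _ _).measure_preimage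
      (MeasurableSet.univ_pi fun _ => measurableSet_singleton _).nullMeasurableSet, Measure.pi_pi]
    refine le_trans (tsub_le_tsub_left (a := ENNReal.ofReal (2⁻¹ ^ n)) ?_ _) ?_
    · rw [ENNReal.ofReal_pow (by positivity), ENNReal.ofReal_inv_of_pos two_pos, Finset.prod_const,
        Finset.card_fin]
      gcongr; simp [ξ, add_assoc]
    · rw [← ENNReal.ofReal_one, ← ENNReal.ofReal_sub _ (by positivity)]
      exact ENNReal.ofReal_le_ofReal (Real.one_sub_le_exp_neg _)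
  refine (measure_mono (t := univ.pi fun _ => Zᶜ) fun X hX i _ hi => ?_).trans ?_
  · exact LinearIndependent.ne_zero i hX <| funext fun j => Finset.prod_eq_zero (Finset.mem_univ (⟨0, h7⟩ : Fin (d n))) (hi (j _) trivial)
  rw [law, Measure.pi_pi, Finset.prod_const, Finset.card_fin]
  refine (pow_le_pow_left' h8 _).trans ?_
  rw [← ENNReal.ofReal_pow (by positivity), ← Real.exp_nat_mul]
  refine ENNReal.ofReal_le_ofReal (Real.exp_le_exp.2 ?_)
  have h9 : (2 : ℝ) ^ n * 2 ^ n ≤ n ^ d n := by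
    calc _ = ((4 : ℝ) ^ κ⁻¹) ^ (κ * n) := by
          rw [← Real.rpow_mul (by norm_num), inv_mul_cancel_left₀ hκ.ne', Real.rpow_natCast,
            ← mul_pow]; norm_num
      _ ≤ (n : ℝ) ^ (κ * n) := by gcongr
      _ ≤ _ := by
          rw [← Real.rpow_natCast]
          exact Real.rpow_le_rpow_of_exponent_le (by exact_mod_cast h5) h4
  have h10 : (1 - ε) * (2 ^ n * 2 ^ n) < m + 1 :=
    lt_of_le_of_lt (by gcongr) (Nat.lt_floor_add_one _)
  have h11 : (1 : ℝ) ≤ 2 ^ n := one_le_pow₀ one_le_two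
  rw [mul_neg, neg_le_neg_iff, inv_pow, ← div_eq_mul_inv, le_div_iff₀ (by positivity)]
  nlinarith

end
end Pool.Agent.Results.MP_2a72d7_pr.ZeroTensor
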